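import Mathlib

/-!
Vanishing of descendant Gromov-Witten invariants of monotone symplectic manifolds.

Gromov-Witten theory is not in Mathlib; it enters through its standard properties, which are
the fields of the structures `Target`, `DeligneMumford`, `StableMaps` and `GWTheory` below.
-/

namespace Pool.Agent.Results.MP_b03aaa_ag.DescendantVanishing

open Finset

/-- The rational cohomology of a space in even degrees: a commutative `ℚ`-algebra graded by
the submodules `H k`, which stand for the cohomology groups in degree `2 k`. -/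
structure EvenCoh where
  carrier : Type
  [commRing : CommRing carrier]
  [algebra : Algebra ℚ carrier]
  H : ℕ → Submodule ℚ carrier
  [graded : GradedAlgebra H]

attribute [instance] EvenCoh.commRing EvenCoh.algebra EvenCoh.graded

instance : CoeSort EvenCoh Type := ⟨EvenCoh.carrier⟩

/-- The topological data of a compact symplectic manifold `(X, ω)` of real dimension `2 n` with
an `ω`-compatible almost complex structure `J`. -/
structure Target where
  /-- half of the real dimension of `X` -/
  n : ℕ
  /-- `X.H k` is the cohomology of `X` in degree `2 k` -/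
  X : EvenCoh
  /-- integration over the fundamental class of `X` -/
  integral : X →ₗ[ℚ] ℚ
  integral_deg : ∀ k, ∀ a ∈ X.H k, k ≠ n → integral a = 0
  /-- index set of a homogeneous basis of the even cohomology of `X` -/
  ι : Type
  [fintype : Fintype ι]
  /-- half of the degree of the basis element `e i` -/
  d : ι → ℕ
  d_le : ∀ i, d i ≤ n
  e : ι → X
  e_mem : ∀ i, e i ∈ X.H (d i)
  /-- the Poincare dual basis -/
  e' : ι → X
  e'_mem : ∀ i, e' i ∈ X.H (n - d i)
  poincare : ∀ a : X, a = ∑ i, integral (a * e' i) • e i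
  /-- the second homology of `X` with integral coefficients -/
  H₂ : Type
  [addCommGroup : AddCommGroup H₂]
  c₁ : H₂ →+ ℤ
  ω : H₂ →+ ℝ
  /-- the classes represented by non-constant `J`-holomorphic maps from the 2-sphere to `X` -/
  spheres : Set H₂
  ω_pos : ∀ A ∈ spheres, 0 < ω A

attribute [instance] Target.fintype Target.addCommGroup

/-- The even cohomology of the Deligne-Mumford spaces of stable curves; only the pairs `g`, `N`
with `2 g + N ≥ 3` are used. -/
structure DeligneMumford where
  /-- `coh g N` is the even cohomology of the space of stable curves of genus `g` with `N`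
  marked points -/
  coh : ℕ → ℕ → EvenCoh
  /-- the (complex) dimension of that space is `3 g - 3 + N` -/
  top : ∀ g N k, 3 ≤ 2 * g + N → 3 * g + N < k + 3 → (coh g N).H k = ⊥
  /-- the psi classes of the Deligne-Mumford space -/
  ψbar : ∀ g N, Fin N → coh g N
  ψbar_mem : ∀ g N s, ψbar g N s ∈ (coh g N).H 1

/-- The even cohomology of the moduli spaces of stable `J`-holomorphic maps to `X`, with their
tautological classes and virtual fundamental classes. -/
structure StableMaps (X : Target) (D : DeligneMumford) where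
  /-- `M g N β` is the even cohomology of the moduli space of stable `J`-holomorphic maps of
  genus `g` with `N` marked points in the class `β` -/
  M : ℕ → ℕ → X.H₂ → EvenCoh
  /-- the first Chern classes of the universal cotangent line bundles -/
  ψ : ∀ g N β, Fin N → M g N β
  ψ_mem : ∀ g N β s, ψ g N β s ∈ (M g N β).H 1
  /-- pull-back by the evaluation map at a marked point -/
  ev : ∀ g N β, Fin N → X.X →ₐ[ℚ] M g N β
  ev_mem : ∀ g N β s k, ∀ a ∈ X.X.H k, ev g N β s a ∈ (M g N β).H k
  /-- pull-back by the stabilisation map to the Deligne-Mumford space -/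
  st : ∀ g N β, 3 ≤ 2 * g + N → D.coh g N →ₐ[ℚ] M g N β
  st_mem : ∀ g N β h k, ∀ a ∈ (D.coh g N).H k, st g N β h a ∈ (M g N β).H k
  /-- integration over the virtual fundamental class -/
  vir : ∀ g N β, M g N β →ₗ[ℚ] ℚ
  /-- the (complex) virtual dimension is `(1 - g) (n - 3) + c₁(β) + N` -/
  vir_deg : ∀ g N β k, ∀ a ∈ (M g N β).H k,
    (k : ℤ) ≠ (1 - (g : ℤ)) * ((X.n : ℤ) - 3) + X.c₁ β + N → vir g N β a = 0

/-- The descendant class `∏ ψ_s ^ b_s ev_s^* γ_s`. -/
def StableMaps.desc {X : Target} {D : DeligneMumford} (Q : StableMaps X D) (g N : ℕ) (β : X.H₂)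
    (b : Fin N → ℕ) (γ : Fin N → X.X) : Q.M g N β :=
  ∏ s, Q.ψ g N β s ^ b s * Q.ev g N β s (γ s)

/-- The contribution of one splitting `β = β' + β''` to the comparison formula: the integral of
`ψ_s ^ b_s ev_s^* γ_s` and of the remaining classes over the fibre product over `X` of the space
of maps of genus `0` and class `β'` with two marked points (`s` and the node) and the space of
maps of genus `g` and class `β''` with `N` marked points (the node taking the place of `s`). -/
def StableMaps.boundary {X : Target} {D : DeligneMumford} (Q : StableMaps X D) (g N : ℕ)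
    (h : 3 ≤ 2 * g + N) (s : Fin N) (b : Fin N → ℕ) (γ : Fin N → X.X) (ρ : D.coh g N)
    (β' β'' : X.H₂) : ℚ :=
  ∑ i, Q.vir 0 2 β' (Q.ψ 0 2 β' 0 ^ b s * Q.ev 0 2 β' 0 (γ s) * Q.ev 0 2 β' 1 (X.e i)) *
    Q.vir g N β'' (Q.desc g N β'' (Function.update b s 0) (Function.update γ s (X.e' i)) *
      Q.st g N β'' h ρ)

/-- The Gromov-Witten theory of a compact symplectic manifold `(X, ω)`, computed with an
`ω`-compatible almost complex structure `J` (the resulting invariants do not depend on `J` and
are unchanged under deformations of `ω`). -/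
structure GWTheory where
  X : Target
  D : DeligneMumford
  Q : StableMaps X D
  /-- the finitely many splittings `β = β' + β''` with `β' ≠ 0` for which there is a stable
  `J`-holomorphic map whose domain is the union of a connected rational curve of class `β'` and
  a connected curve of class `β''` meeting in one node -/
  splittings : X.H₂ → Finset (X.H₂ × X.H₂)
  splittings_add : ∀ β, ∀ p ∈ splittings β, p.1 + p.2 = β
  splittings_ne : ∀ β, ∀ p ∈ splittings β, p.1 ≠ 0
  splittings_mem : ∀ β, ∀ p ∈ splittings β, p.1 ∈ AddSubmonoid.closure X.spheres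
  /-- `ψ_s` minus the pull-back of `ψbar_s` is the (virtual) divisor `D_s` of the stable maps
  for which the marked point `s` lies on a contracted rational tail carrying no other marked
  point; `D_s` is the union over the splittings of the fibre products in `boundary`. The classes
  `ψ_s` and `ev_s` restrict to the first factor, the other ones to the second factor. -/
  comparison : ∀ g N β (h : 3 ≤ 2 * g + N) (s : Fin N) (b : Fin N → ℕ) (γ : Fin N → X.X)
    (ρ : D.coh g N),
    Q.vir g N β ((Q.ψ g N β s - Q.st g N β h (D.ψbar g N s)) *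
        Q.desc g N β b γ * Q.st g N β h ρ) =
      ∑ p ∈ splittings β, Q.boundary g N h s b γ ρ p.1 p.2

namespace GWTheory

variable (T : GWTheory)

/-- The descendant Gromov-Witten invariant `⟨τ_{b_1} γ_1, …, τ_{b_N} γ_N⟩` of genus `g` and
class `β`: the integral of `∏ ψ_s ^ b_s ev_s^* γ_s` over the virtual class. -/
def descendant (g N : ℕ) (β : T.X.H₂) (b : Fin N → ℕ) (γ : Fin N → T.X.X) : ℚ :=
  T.Q.vir g N β (T.Q.desc g N β b γ)

/-- `(X, ω)` is monotone and `ν > 0` bounds from below the values of `c₁(X)` on the classes of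
non-constant `J`-holomorphic spheres (in particular this holds for the minimal Chern number `ν`
of a monotone manifold). -/
structure IsMonotone (ν : ℝ) : Prop where
  pos : 0 < ν
  monotone : ∃ r : ℝ, 0 < r ∧ ∀ β, (T.X.c₁ β : ℝ) = r * T.X.ω β
  chern : ∀ A ∈ T.X.spheres, ν ≤ T.X.c₁ A

variable {T}

lemma c₁_le {ν : ℝ} (h : T.IsMonotone ν) {A : T.X.H₂}
    (hA : A ∈ AddSubmonoid.closure T.X.spheres) (h0 : A ≠ 0) : ν ≤ T.X.c₁ A := by
  have key : A = 0 ∨ ν ≤ T.X.c₁ A := by
    clear h0
    induction hA using AddSubmonoid.closure_induction with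
    | mem x hx => exact Or.inr (h.chern x hx)
    | zero => exact Or.inl rfl
    | add x y _ _ hx hy =>
      rcases hx with hx | hx <;> rcases hy with hy | hy
      · left; rw [hx, hy, add_zero]
      · right; rw [hx, zero_add]; exact hy
      · right; rw [hy, add_zero]; exact hx
      · right
        rw [map_add]
        push_cast
        have := h.pos
        linarith
  exact key.resolve_left h0

lemma two_point {ν : ℝ} (h : T.IsMonotone ν) {β : T.X.H₂} (p : T.X.H₂ × T.X.H₂)
    (hp : p ∈ T.splittings β) (b c : ℕ) (a : T.X.X) (ha : a ∈ T.X.X.H c)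
    (hbc : ((b : ℝ) + 1) + c < ν) (i : T.X.ι) :
    T.Q.vir 0 2 p.1 (T.Q.ψ 0 2 p.1 0 ^ b * T.Q.ev 0 2 p.1 0 a * T.Q.ev 0 2 p.1 1 (T.X.e i)) =
      0 := by
  have hc := c₁_le h (T.splittings_mem β p hp) (T.splittings_ne β p hp)
  apply T.Q.vir_deg 0 2 p.1 (b • 1 + c + T.X.d i)
  · apply SetLike.mul_mem_graded
    · apply SetLike.mul_mem_graded
      · exact SetLike.pow_mem_graded b (T.Q.ψ_mem 0 2 p.1 0)
      · exact T.Q.ev_mem 0 2 p.1 0 c a ha
    · exact T.Q.ev_mem 0 2 p.1 1 _ _ (T.X.e_mem i)
  · intro heq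
    have hd := T.X.d_le i
    have h1 : (b : ℤ) + 1 + c < T.X.c₁ p.1 := by
      have : ((b : ℝ) + 1) + c < T.X.c₁ p.1 := lt_of_lt_of_le hbc hc
      exact_mod_cast this
    simp only [smul_eq_mul, mul_one, Nat.cast_add, Nat.cast_zero, sub_zero, one_mul,
      Nat.cast_ofNat] at heq
    have hd' : (T.X.d i : ℤ) ≤ T.X.n := by exact_mod_cast hd
    linarith

/-- One step: trading a psi class at `s` for its ancestor version. -/
lemma step {ν : ℝ} (h : T.IsMonotone ν) (g N : ℕ) (hst : 3 ≤ 2 * g + N) (β : T.X.H₂)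
    (b c : Fin N → ℕ) (γ : Fin N → T.X.X) (hγ : ∀ s, γ s ∈ T.X.X.H (c s)) (s : Fin N)
    (hs : ((b s : ℝ) + 1) + c s < ν) (ρ : T.D.coh g N) :
    T.Q.vir g N β (T.Q.desc g N β (Function.update b s (b s + 1)) γ * T.Q.st g N β hst ρ) =
      T.Q.vir g N β (T.Q.desc g N β b γ * T.Q.st g N β hst (T.D.ψbar g N s * ρ)) := by
  have hcomp := T.comparison g N β hst s b γ ρ
  have hz : ∑ p ∈ T.splittings β, T.Q.boundary g N hst s b γ ρ p.1 p.2 = 0 := by
    refine Finset.sum_eq_zero fun p hp => Finset.sum_eq_zero fun i _ => ?_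
    rw [two_point h p hp (b s) (c s) (γ s) (hγ s) hs i, zero_mul]
  rw [hz] at hcomp
  have hprod : T.Q.desc g N β (Function.update b s (b s + 1)) γ =
      T.Q.ψ g N β s * T.Q.desc g N β b γ := by
    unfold StableMaps.desc
    rw [← Finset.mul_prod_erase univ _ (Finset.mem_univ s),
      ← Finset.mul_prod_erase univ (fun t => T.Q.ψ g N β t ^ b t * T.Q.ev g N β t (γ t))
        (Finset.mem_univ s)]
    have : ∏ t ∈ univ.erase s, T.Q.ψ g N β t ^ (Function.update b s (b s + 1)) t *
        T.Q.ev g N β t (γ t) =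
        ∏ t ∈ univ.erase s, T.Q.ψ g N β t ^ b t * T.Q.ev g N β t (γ t) := by
      refine Finset.prod_congr rfl fun t ht => ?_
      rw [Function.update_of_ne (Finset.ne_of_mem_erase ht)]
    rw [this, Function.update_self]
    ring
  rw [hprod, map_mul (T.Q.st g N β hst)]
  have e1 : (T.Q.ψ g N β s - T.Q.st g N β hst (T.D.ψbar g N s)) *
        T.Q.desc g N β b γ * T.Q.st g N β hst ρ =
      T.Q.ψ g N β s * T.Q.desc g N β b γ * T.Q.st g N β hst ρ -
      T.Q.desc g N β b γ *
        (T.Q.st g N β hst (T.D.ψbar g N s) * T.Q.st g N β hst ρ) := by ring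
  rw [e1, map_sub, sub_eq_zero] at hcomp
  exact hcomp

/-- All psi classes at the points of `S` are traded for ancestor classes. -/
lemma trade {ν : ℝ} (h : T.IsMonotone ν) (g N : ℕ) (hst : 3 ≤ 2 * g + N) (β : T.X.H₂)
    (c : Fin N → ℕ) (γ : Fin N → T.X.X) (hγ : ∀ s, γ s ∈ T.X.X.H (c s)) (S : Finset (Fin N)) :
    ∀ (m : ℕ) (b : Fin N → ℕ) (ρ : T.D.coh g N), ∑ s ∈ S, b s = m →
      (∀ s ∈ S, (b s : ℝ) + c s < ν) →
      ∃ b' : Fin N → ℕ,
        T.Q.vir g N β (T.Q.desc g N β b γ * T.Q.st g N β hst ρ) =
        T.Q.vir g N β (T.Q.desc g N β b' γ *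
          T.Q.st g N β hst ((∏ s ∈ S, T.D.ψbar g N s ^ b s) * ρ)) := by
  intro m
  induction m with
  | zero =>
    intro b ρ hb _
    refine ⟨b, ?_⟩
    have : ∏ s ∈ S, T.D.ψbar g N s ^ b s = 1 := by
      refine Finset.prod_eq_one fun s hs => ?_
      rw [Finset.sum_eq_zero_iff] at hb
      rw [hb s hs, pow_zero]
    rw [this, one_mul]
  | succ m ih =>
    intro b ρ hb hν
    have hex : ∃ s ∈ S, b s ≠ 0 := by
      by_contra hcon
      push Not at hcon
      rw [Finset.sum_eq_zero hcon] at hb
      omega
    obtain ⟨s, hs, hbs⟩ := hex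
    obtain ⟨k, hk⟩ := Nat.exists_eq_succ_of_ne_zero hbs
    set b₀ : Fin N → ℕ := Function.update b s k with hb₀
    have hb1 : b = Function.update b₀ s (b₀ s + 1) := by
      rw [hb₀, Function.update_self, Function.update_idem, ← Nat.succ_eq_add_one, ← hk,
        Function.update_eq_self]
    have hk0 : b₀ s = k := by rw [hb₀, Function.update_self]
    have hsum : ∑ t ∈ S, b₀ t = m := by
      rw [← Finset.add_sum_erase S _ hs] at hb ⊢
      have : ∑ t ∈ S.erase s, b₀ t = ∑ t ∈ S.erase s, b t := by
        refine Finset.sum_congr rfl fun t ht => ?_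
        rw [hb₀, Function.update_of_ne (Finset.ne_of_mem_erase ht)]
      rw [this, hk0]
      omega
    have hν0 : ∀ t ∈ S, (b₀ t : ℝ) + c t < ν := by
      intro t ht
      by_cases hts : t = s
      · subst hts
        have := hν t ht
        rw [hk] at this
        rw [hk0]
        push_cast at this
        linarith
      · rw [hb₀, Function.update_of_ne hts]
        exact hν t ht
    obtain ⟨b', hb'⟩ := ih b₀ (T.D.ψbar g N s * ρ) hsum hν0
    refine ⟨b', ?_⟩
    have hstep := step h g N hst β b₀ c γ hγ s (by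
      have := hν s hs
      rw [hk] at this
      rw [hk0]
      push_cast at this
      linarith) ρ
    rw [← hb1] at hstep
    rw [hstep, hb']
    have hρ : (∏ s ∈ S, T.D.ψbar g N s ^ b₀ s) * (T.D.ψbar g N s * ρ) =
        (∏ s ∈ S, T.D.ψbar g N s ^ b s) * ρ := by
      rw [← Finset.mul_prod_erase S _ hs,
        ← Finset.mul_prod_erase S (fun t => T.D.ψbar g N t ^ b t) hs]
      have : ∏ t ∈ S.erase s, T.D.ψbar g N t ^ b₀ t = ∏ t ∈ S.erase s, T.D.ψbar g N t ^ b t := by
        refine Finset.prod_congr rfl fun t ht => ?_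
        rw [hb₀, Function.update_of_ne (Finset.ne_of_mem_erase ht)]
      rw [this, hk0, hk, Nat.succ_eq_add_one, pow_succ]
      ring
    rw [hρ]

end GWTheory

open GWTheory

/-- The descendant invariants vanish under the hypotheses of the question. -/
theorem result (T : GWTheory) (ν : ℝ) (hν : T.IsMonotone ν) (g N : ℕ) (hst : 3 ≤ 2 * g + N)
    (b c : Fin N → ℕ) (γ : Fin N → T.X.X) (hγ : ∀ s, γ s ∈ T.X.X.H (c s)) (S : Finset (Fin N))
    (h₁ : ∀ s ∈ S, (b s : ℝ) + c s < ν)
    (h₂ : 3 * ((g : ℤ) - 1) + N < ∑ s ∈ S, (b s : ℤ)) (β : T.X.H₂) :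
    T.descendant g N β b γ = 0 := by
  obtain ⟨b', hb'⟩ := trade hν g N hst β c γ hγ S _ b 1 rfl h₁
  have h0 : (∏ s ∈ S, T.D.ψbar g N s ^ b s) = 0 := by
    have hmem : (∏ s ∈ S, T.D.ψbar g N s ^ b s) ∈ (T.D.coh g N).H (∑ s ∈ S, b s) := by
      apply SetLike.prod_mem_graded
      intro s _
      have := SetLike.pow_mem_graded (A := (T.D.coh g N).H) (b s) (T.D.ψbar_mem g N s)
      simpa using this
    rw [T.D.top g N _ hst] at hmem
    · exact (Submodule.mem_bot ℚ).1 hmem
    · have : (3 * ((g : ℤ) - 1) + N < ((∑ s ∈ S, b s : ℕ) : ℤ)) := by push_cast; exact h₂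
      omega
  rw [map_one, mul_one] at hb'
  rw [descendant, hb', h0, zero_mul, map_zero, mul_zero, map_zero]

end Pool.Agent.Results.MP_b03aaa_ag.DescendantVanishing
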